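import Mathlib

/-!
# The choice of the parameter: numerical part
-/

set_option autoImplicit false

namespace Pool.Agent.W692.CS

/-- the number of variables -/
def NF (D l p : ℕ) : ℕ := p * (D ^ (2 * p + 1) * (D * (2 ^ (l * p)) ^ D)) + D ^ (2 * p + 1) * D

theorem pow_le_NF {D : ℕ} (l p : ℕ) (hD : 2 ≤ D) (hp : 1 ≤ p) : 2 ^ (l * p) ≤ NF D l p := by
  unfold NF
  have h1 : 1 ≤ D ^ (2 * p + 1) := Nat.one_le_pow _ _ (by omega)
  have h2 : 1 ≤ 2 ^ (l * p) := Nat.one_le_pow _ _ (by omega)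
  have h3 : 2 ^ (l * p) ≤ (2 ^ (l * p)) ^ D := by
    calc 2 ^ (l * p) = (2 ^ (l * p)) ^ 1 := (pow_one _).symm
      _ ≤ (2 ^ (l * p)) ^ D := Nat.pow_le_pow_right h2 (by omega)
  calc 2 ^ (l * p) ≤ 1 * (1 * (1 * (2 ^ (l * p)) ^ D)) := by simpa using h3
    _ ≤ p * (D ^ (2 * p + 1) * (D * (2 ^ (l * p)) ^ D)) := by
        gcongr
        omega
    _ ≤ _ := Nat.le_add_right _ _

theorem four_pow_le_NF {D : ℕ} (l p : ℕ) (hD : 2 ≤ D) : 4 ^ p ≤ NF D l p := by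
  unfold NF
  calc 4 ^ p = 2 ^ (2 * p) := by rw [pow_mul]; norm_num
    _ ≤ D ^ (2 * p) := Nat.pow_le_pow_left hD _
    _ ≤ D ^ (2 * p + 1) * D := by
        rw [pow_succ, mul_assoc]
        exact Nat.le_mul_of_pos_right _ (by nlinarith)
    _ ≤ _ := Nat.le_add_left _ _

theorem succ_le_NF {D : ℕ} (l p : ℕ) (hD : 2 ≤ D) : p + 1 ≤ NF D l p := by
  have h1 := four_pow_le_NF l p hD
  have h2 : p < 4 ^ p := Nat.lt_pow_self (by norm_num)
  omega

theorem NF_le (D l p : ℕ) (hp : 1 ≤ p) : NF D l p ≤ 2 ^ ((2 + 4 * D + l * D) * p) := by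
  unfold NF
  have h1 : p ≤ 2 ^ p := Nat.lt_two_pow_self.le
  have h2 : D ≤ 2 ^ D := Nat.lt_two_pow_self.le
  have h3 : D ^ (2 * p + 1) ≤ 2 ^ (3 * D * p) := by
    calc D ^ (2 * p + 1) ≤ (2 ^ D) ^ (2 * p + 1) := Nat.pow_le_pow_left h2 _
      _ = 2 ^ (D * (2 * p + 1)) := by rw [← pow_mul]
      _ ≤ 2 ^ (3 * D * p) := Nat.pow_le_pow_right (by norm_num) (by nlinarith)
  have h4 : D ≤ 2 ^ (D * p) := h2.trans (Nat.pow_le_pow_right (by norm_num) (by nlinarith))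
  have h5 : (2 ^ (l * p)) ^ D = 2 ^ (l * D * p) := by
    rw [← pow_mul]; congr 1; ring
  have h6 : 1 ≤ 2 ^ (l * D * p) := Nat.one_le_pow _ _ (by norm_num)
  have h7 : 1 ≤ 2 ^ p := Nat.one_le_pow _ _ (by norm_num)
  have h8 : 2 ≤ 2 ^ p := by
    calc 2 = 2 ^ 1 := rfl
      _ ≤ 2 ^ p := Nat.pow_le_pow_right (by norm_num) hp
  rw [h5]
  calc p * (D ^ (2 * p + 1) * (D * 2 ^ (l * D * p))) + D ^ (2 * p + 1) * D
      ≤ 2 ^ p * (2 ^ (3 * D * p) * (2 ^ (D * p) * 2 ^ (l * D * p))) +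
        2 ^ p * (2 ^ (3 * D * p) * (2 ^ (D * p) * 2 ^ (l * D * p))) := by
        refine Nat.add_le_add (by gcongr) ?_
        calc D ^ (2 * p + 1) * D = 1 * (D ^ (2 * p + 1) * (D * 1)) := by ring
          _ ≤ _ := by gcongr
    _ = 2 * (2 ^ p * (2 ^ (3 * D * p) * (2 ^ (D * p) * 2 ^ (l * D * p)))) := by ring
    _ ≤ 2 ^ p * (2 ^ p * (2 ^ (3 * D * p) * (2 ^ (D * p) * 2 ^ (l * D * p)))) :=
        Nat.mul_le_mul_right _ h8
    _ = 2 ^ ((2 + 4 * D + l * D) * p) := by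
        rw [← pow_add, ← pow_add, ← pow_add, ← pow_add]
        congr 1
        ring

theorem NF_succ (D l p : ℕ) (hp : 1 ≤ p) :
    NF D l (p + 1) ≤ (2 * D ^ 2 * 2 ^ (l * D)) * NF D l p := by
  unfold NF
  have h0 : D ^ (2 * (p + 1) + 1) = D ^ 2 * D ^ (2 * p + 1) := by ring
  have h1 : (2 ^ (l * (p + 1))) ^ D = 2 ^ (l * D) * (2 ^ (l * p)) ^ D := by
    rw [← pow_mul, ← pow_mul, ← pow_add]; congr 1; ring
  have h2 : 1 ≤ 2 ^ (l * D) := Nat.one_le_pow _ _ (by norm_num)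
  rw [h0, h1, mul_add]
  refine Nat.add_le_add ?_ ?_
  · calc (p + 1) * (D ^ 2 * D ^ (2 * p + 1) * (D * (2 ^ (l * D) * (2 ^ (l * p)) ^ D)))
        ≤ (2 * p) * (D ^ 2 * D ^ (2 * p + 1) * (D * (2 ^ (l * D) * (2 ^ (l * p)) ^ D))) :=
          Nat.mul_le_mul_right _ (by omega)
      _ = _ := by ring
  · calc D ^ 2 * D ^ (2 * p + 1) * D = 1 * D ^ 2 * 1 * (D ^ (2 * p + 1) * D) := by ring
      _ ≤ 2 * D ^ 2 * 2 ^ (l * D) * (D ^ (2 * p + 1) * D) := by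
        gcongr
        norm_num

theorem sel (D l : ℕ) (hD : 2 ≤ D) (hl : 1 ≤ l) : ∃ C : ℝ, 0 < C ∧ ∀ η : ℝ, 0 < η → ∀ p₀ : ℕ,
    ∃ m₀ : ℕ, ∀ m : ℕ, m₀ ≤ m → ∃ p : ℕ, p₀ ≤ p ∧ 1 ≤ p ∧
      NF D l p * (3 * (l * p) + 4) ≤ m ∧ (m : ℝ) ≤ (NF D l p : ℝ) ^ (1 + η) ∧
      ((l * p : ℕ) : ℝ) ≤ (NF D l p : ℝ) ^ η ∧ 2 ^ (l * p) ≤ NF D l p ∧
      (p : ℝ) ≤ Real.log (NF D l p) ∧ Real.log (NF D l p) ≤ C * p := by
  refine ⟨((2 + 4 * D + l * D : ℕ) : ℝ), by positivity, fun η hη p₀ => ?_⟩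
  set K : ℕ := 2 * D ^ 2 * 2 ^ (l * D) with hK
  have hK1 : 1 ≤ K := by
    rw [hK]
    have h1 : 1 ≤ D ^ 2 := Nat.one_le_pow _ _ (by omega)
    have h2 : 1 ≤ 2 ^ (l * D) := Nat.one_le_pow _ _ (by norm_num)
    calc 1 = 1 * 1 * 1 := rfl
      _ ≤ 2 * D ^ 2 * 2 ^ (l * D) := by gcongr; norm_num
  obtain ⟨p₁, hp₁⟩ := exists_nat_ge (20 * (K : ℝ) * l / η ^ 2)
  set q := max (max p₀ p₁) 1 with hq
  set B : ℕ → ℕ := fun p => NF D l p * (3 * (l * p) + 4) with hB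
  have hBp : ∀ p, p + 1 ≤ B p := fun p => by
    have h1 := succ_le_NF l p hD
    calc p + 1 ≤ NF D l p * 1 := by rw [mul_one]; exact h1
      _ ≤ B p := Nat.mul_le_mul_left _ (by omega)
  have hlogp : ∀ p : ℕ, (p : ℝ) ≤ Real.log (NF D l p) := fun p => by
    have h1 : ((4 ^ p : ℕ) : ℝ) ≤ NF D l p := by exact_mod_cast four_pow_le_NF l p hD
    have h2 : Real.log ((4 ^ p : ℕ) : ℝ) ≤ Real.log (NF D l p) :=
      Real.log_le_log (by positivity) h1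
    have h3 : Real.log ((4 ^ p : ℕ) : ℝ) = p * Real.log 4 := by
      push_cast
      rw [Real.log_pow]
    have h4 : (1 : ℝ) ≤ Real.log 4 := by
      have e9 : Real.log 4 = 2 * Real.log 2 := by
        rw [show (4 : ℝ) = 2 ^ 2 by norm_num, Real.log_pow]
        norm_num
      have := Real.log_two_gt_d9
      linarith
    have h5 : (0 : ℝ) ≤ p := Nat.cast_nonneg _
    nlinarith
  refine ⟨B q, fun m hm => ?_⟩
  set p := Nat.findGreatest (fun p => B p ≤ m) m with hp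
  have hqm : q ≤ m := by
    have := hBp q
    omega
  have hqp : q ≤ p := Nat.le_findGreatest hqm hm
  have hP : B p ≤ m := Nat.findGreatest_spec (P := fun p => B p ≤ m) hqm hm
  have hp1 : 1 ≤ p := by omega
  have hlt : m < B (p + 1) := by
    by_contra hcon
    rw [not_lt] at hcon
    have h1 := hBp (p + 1)
    have h4 : p + 1 ≤ p := Nat.le_findGreatest (P := fun p => B p ≤ m) (by omega) hcon
    omega
  have hN1 : (1 : ℝ) ≤ NF D l p := by
    have := succ_le_NF l p hD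
    exact_mod_cast (by omega : 1 ≤ NF D l p)
  have hN0 : (0 : ℝ) < NF D l p := by linarith
  have hpR : (1 : ℝ) ≤ p := by exact_mod_cast hp1
  have hlR : (1 : ℝ) ≤ l := by exact_mod_cast hl
  have hKR : (1 : ℝ) ≤ K := by exact_mod_cast hK1
  -- the key inequality
  have hkey : 10 * (K : ℝ) * l * p ≤ (NF D l p : ℝ) ^ η := by
    have h1 : Real.exp (η * p) ≤ (NF D l p : ℝ) ^ η := by
      rw [Real.rpow_def_of_pos hN0, mul_comm η]
      exact Real.exp_le_exp.2 (mul_le_mul_of_nonneg_right (hlogp p) hη.le)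
    refine le_trans ?_ h1
    have h2 : (η * p) ^ 2 / 2 ≤ Real.exp (η * p) := by
      have := Real.quadratic_le_exp_of_nonneg (x := η * p) (by positivity)
      have h0 : 0 ≤ η * p := by positivity
      linarith
    refine le_trans ?_ h2
    have h3 : 20 * (K : ℝ) * l / η ^ 2 ≤ p := by
      refine hp₁.trans ?_
      exact_mod_cast (by omega : p₁ ≤ p)
    rw [div_le_iff₀ (by positivity)] at h3
    have h4 : 20 * (K : ℝ) * l * p ≤ p * η ^ 2 * p :=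
      mul_le_mul_of_nonneg_right h3 (by positivity)
    nlinarith
  refine ⟨p, by omega, hp1, hP, ?_, ?_, pow_le_NF l p hD hp1, hlogp p, ?_⟩
  · have h1 : m ≤ K * NF D l p * (10 * l * p) := by
      calc m ≤ NF D l (p + 1) * (3 * (l * (p + 1)) + 4) := hlt.le
        _ ≤ (K * NF D l p) * (10 * l * p) := by
          refine Nat.mul_le_mul (NF_succ D l p hp1) ?_
          nlinarith
    have h2 : (m : ℝ) ≤ NF D l p * (10 * (K : ℝ) * l * p) := by
      have : (m : ℝ) ≤ ((K * NF D l p * (10 * l * p) : ℕ) : ℝ) := by exact_mod_cast h1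
      refine this.trans (le_of_eq ?_)
      push_cast
      ring
    calc (m : ℝ) ≤ NF D l p * (10 * (K : ℝ) * l * p) := h2
      _ ≤ NF D l p * (NF D l p : ℝ) ^ η := mul_le_mul_of_nonneg_left hkey hN0.le
      _ = (NF D l p : ℝ) ^ (1 + η) := by rw [Real.rpow_add hN0, Real.rpow_one]
  · refine le_trans ?_ hkey
    push_cast
    have h1 : (0 : ℝ) ≤ (l : ℝ) * p := by positivity
    nlinarith
  · have h1 : ((NF D l p : ℕ) : ℝ) ≤ ((2 ^ ((2 + 4 * D + l * D) * p) : ℕ) : ℝ) := by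
      exact_mod_cast NF_le D l p hp1
    have h2 := Real.log_le_log hN0 h1
    have h3 : Real.log ((2 ^ ((2 + 4 * D + l * D) * p) : ℕ) : ℝ) =
        ((2 + 4 * D + l * D : ℕ) : ℝ) * p * Real.log 2 := by
      push_cast
      rw [Real.log_pow]
      push_cast
      ring
    rw [h3] at h2
    refine h2.trans ?_
    have h4 : Real.log 2 ≤ 1 := by
      have := Real.log_two_lt_d9
      linarith
    have h5 : (0 : ℝ) ≤ ((2 + 4 * D + l * D : ℕ) : ℝ) * p := by positivity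
    nlinarith

end Pool.Agent.W692.CS
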