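import Pool.Agent.W997.CS.Stm
import Pool.Agent.W692.CS.SelAux

/-!
# The choice of the parameter
-/

set_option autoImplicit false

namespace Pool.Agent.W692.CS

open Pool.Agent.W997.CS

theorem NN_eq (D l p : ℕ) : NN D l p = NF D l p := by
  unfold NN NF
  simp only [Fintype.card_sum, Fintype.card_prod, Fintype.card_fun, Fintype.card_fin]

theorem main : Pool.Agent.W997.CS.S_SEL := by
  intro D l hD hl
  simp only [NN_eq]
  exact sel D l hD hl

end Pool.Agent.W692.CS
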